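import Mathlib
import Pool.Agent.R285.PickExt

/-!
# A complete pseudo-Pick pair `(k, l)` with `l / k` not positive semidefinite
-/

set_option autoImplicit false

namespace Pool.Agent.Results.MP_cbd977_an.PseudoPick

open scoped InnerProductSpace ComplexOrder ComplexConjugate
open Matrix Pool.Agent.H770R3.Shim Pool.Agent.Results.MP_e3a8c8_an.ShimorinCertificates
open Pool.Agent.R285.PickExt

universe u

/-- The pseudo-Pick property of `(k, l)` for `m` points and `n × n` matrices: whenever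
`[(I - W_i W_j^*) k(z_i, z_j)]` is positive semidefinite, some contractive multiplier `Φ` of
`H_l ⊗ ℂ^n` has `Φ(z_i) = W_i` for all `i`. -/
def PseudoPickProperty {X : Type u} (k l : Kernel X) (m n : ℕ) : Prop :=
  ∀ (z : Fin m → X) (W : Fin m → Matrix (Fin n) (Fin n) ℂ),
    (Matrix.of fun a b : Fin m × Fin n =>
      (1 - W a.1 * (W b.1)ᴴ) a.2 b.2 * k.fn (z a.1) (z b.1)).PosSemidef →
      ∃ Φ : X → Matrix (Fin n) (Fin n) ℂ, IsContractiveMultiplier l l Φ ∧ ∀ i, Φ (z i) = W i

/-- `(k, l)` is complete pseudo-Pick: the property holds for `n` points and `n × n` matrices, for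
every `n ≥ 1`. -/
def IsCompletePseudoPick {X : Type u} (k l : Kernel X) : Prop :=
  ∀ n : ℕ, 1 ≤ n → PseudoPickProperty k l n n

/-- the kernel `k` of the example -/
noncomputable def mk3 : Matrix (Fin 3) (Fin 3) ℂ := !![1, 1/2, -1/2; 1/2, 1, 1/2; -1/2, 1/2, 1]

/-- the kernel `l` of the example -/
noncomputable def ml3 : Matrix (Fin 3) (Fin 3) ℂ := !![1, 1/2, 1/2; 1/2, 1, 1/2; 1/2, 1/2, 1]

lemma mk3_psd : mk3.PosSemidef := by
  refine psd_of_univ ?_ fun c => ?_
  · intro i j
    fin_cases i <;> fin_cases j <;> simp [mk3, map_ofNat]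
  · have h : (∑ i, ∑ j, conj (c i) * mk3 i j * c j)
      = (1/2 : ℝ) * (conj (c 0 + c 1) * (c 0 + c 1)) + (1/2 : ℝ) * (conj (c 1 + c 2) * (c 1 + c 2))
        + (1/2 : ℝ) * (conj (c 0 - c 2) * (c 0 - c 2)) := by
      simp only [Fin.sum_univ_three, mk3, Matrix.of_apply, Matrix.cons_val', Matrix.cons_val_zero,
        Matrix.cons_val_one, Matrix.cons_val, map_add, map_sub]
      push_cast
      ring
    rw [h]
    simp only [Complex.add_re, Complex.re_ofReal_mul, re_conj_mul_self]
    positivity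

lemma ml3_psd : ml3.PosSemidef := by
  refine psd_of_univ ?_ fun c => ?_
  · intro i j
    fin_cases i <;> fin_cases j <;> simp [ml3, map_ofNat]
  · have h : (∑ i, ∑ j, conj (c i) * ml3 i j * c j)
      = (1/2 : ℝ) * (conj (c 0 + c 1 + c 2) * (c 0 + c 1 + c 2)) + (1/2 : ℝ) * (conj (c 0) * c 0)
        + (1/2 : ℝ) * (conj (c 1) * c 1) + (1/2 : ℝ) * (conj (c 2) * c 2) := by
      simp only [Fin.sum_univ_three, ml3, Matrix.of_apply, Matrix.cons_val', Matrix.cons_val_zero,
        Matrix.cons_val_one, Matrix.cons_val, map_add]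
      push_cast
      ring
    rw [h]
    simp only [Complex.add_re, Complex.re_ofReal_mul, re_conj_mul_self]
    positivity

/-- the kernel `k` -/
noncomputable def kerk : Kernel (Fin 3) := ⟨mk3, mk3_psd⟩

/-- the kernel `l` -/
noncomputable def kerl : Kernel (Fin 3) := ⟨ml3, ml3_psd⟩

/-- the certificate of `l` -/
noncomputable def pcert (z : Fin 3) : Matrix (Fin 3) (Fin 3) ℂ :=
  Matrix.of fun x y => if x = z then 0 else if y = z then 0 else if x = y then 3/4 else 1/2

lemma pcert_psd (z : Fin 3) : (pcert z).PosSemidef := by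
  refine psd_of_univ ?_ fun c => ?_
  · intro i j
    fin_cases z <;> fin_cases i <;> fin_cases j <;> simp [pcert, map_ofNat]
  · have h : ∃ a b : Fin 3, (∑ i, ∑ j, conj (c i) * pcert z i j * c j)
      = (1/2 : ℝ) * (conj (c a + c b) * (c a + c b)) + (1/4 : ℝ) * (conj (c a) * c a)
        + (1/4 : ℝ) * (conj (c b) * c b) := by
      fin_cases z
      · refine ⟨1, 2, ?_⟩
        simp [Fin.sum_univ_three, pcert]
        ring
      · refine ⟨0, 2, ?_⟩
        simp [Fin.sum_univ_three, pcert]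
        ring
      · refine ⟨0, 1, ?_⟩
        simp [Fin.sum_univ_three, pcert]
        ring
    obtain ⟨a, b, h⟩ := h
    rw [h]
    simp only [Complex.add_re, Complex.re_ofReal_mul, re_conj_mul_self]
    positivity

lemma kerl_certificate : HasShimorinCertificate kerl kerl := by
  refine ⟨fun z => ⟨pcert z, pcert_psd z⟩, fun z => ?_⟩
  have h : reduced kerl z = pcert z ⊙ kerl.fn := by
    ext x y
    simp only [reduced, Matrix.of_apply, Matrix.hadamard_apply, kerl]
    fin_cases z <;> fin_cases x <;> fin_cases y <;> simp [pcert, ml3] <;> norm_num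
  have h1 : reduced kerl z - pcert z ⊙ kerl.fn = 0 := by rw [h, sub_self]
  have h2 : pcert z ⊙ kerl.fn - reduced kerl z = 0 := by rw [h, sub_self]
  simp only
  rw [h1, h2]
  exact ⟨Matrix.PosSemidef.zero, Matrix.PosSemidef.zero⟩

variable {n : ℕ}

/-- change of signs -/
lemma Q_signs {X : Type*} (k l : Matrix X X ℂ) (F : Finset X) (e : X → ℝ)
    (he : ∀ x ∈ F, ∀ y ∈ F, l x y = ((e x * e y : ℝ) : ℂ) * k x y) (h : X → E n) :
    Q l F h = Q k F (fun i => ((e i : ℝ) : ℂ) • h i) := by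
  unfold Q
  congr 1
  refine Finset.sum_congr rfl fun i hi => Finset.sum_congr rfl fun j hj => ?_
  rw [he i hi j hj, inner_smul_left, inner_smul_right, Complex.conj_ofReal]
  push_cast
  ring

lemma pick_signs {X : Type*} (k l : Matrix X X ℂ) (F : Finset X) (e : X → ℝ)
    (he : ∀ x ∈ F, ∀ y ∈ F, l x y = ((e x * e y : ℝ) : ℂ) * k x y) (S : X → E n →ₗ[ℂ] E n)
    (hS : ∀ h : X → E n, Q k F (fun i => S i (h i)) ≤ Q k F h) (h : X → E n) :
    Q l F (fun i => S i (h i)) ≤ Q l F h := by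
  rw [Q_signs k l F e he, Q_signs k l F e he]
  have h1 := hS (fun i => ((e i : ℝ) : ℂ) • h i)
  refine le_trans (le_of_eq ?_) h1
  refine Q_congr k fun i _ => ?_
  rw [map_smul]

/-- constant contractive data -/
lemma pick_const {X : Type*} {l : Matrix X X ℂ} (hl : l.PosSemidef) (F : Finset X)
    (C : E n →ₗ[ℂ] E n) (hC : ∀ v, ‖C v‖ ≤ ‖v‖) (h : X → E n) :
    Q l F (fun i => C (h i)) ≤ Q l F h := by
  have hJ : ∀ f : X → E n, Q (Matrix.of fun _ _ => (1 : ℂ) : Matrix X X ℂ) F f =
      ‖∑ i ∈ F, f i‖ ^ 2 := by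
    intro f
    unfold Q
    have h1 : (∑ i ∈ F, ∑ j ∈ F, (Matrix.of fun _ _ => (1 : ℂ) : Matrix X X ℂ) i j *
        ⟪f i, f j⟫_ℂ) = ⟪∑ i ∈ F, f i, ∑ i ∈ F, f i⟫_ℂ := by
      rw [sum_inner]
      refine Finset.sum_congr rfl fun i _ => ?_
      rw [inner_sum]
      refine Finset.sum_congr rfl fun j _ => ?_
      simp
    rw [h1]
    exact re_inner_self' _
  have h1 := schur_block hl (k := Matrix.of fun _ _ => (1 : ℂ))
    (l := Matrix.of fun _ _ => (1 : ℂ)) F (fun _ => C) (fun f => by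
      rw [hJ, hJ, ← map_sum]
      exact pow_le_pow_left₀ (norm_nonneg _) (hC _) 2) h
  have h2 : l ⊙ (Matrix.of fun _ _ => (1 : ℂ) : Matrix X X ℂ) = l := by
    ext x y; simp
  rwa [h2] at h1

lemma Qk_univ' (g : Fin 3 → E n) : Q mk3 Finset.univ g =
    1 / 2 * ‖g 0 + g 1‖ ^ 2 + 1 / 2 * ‖g 1 + g 2‖ ^ 2 + 1 / 2 * ‖g 0 - g 2‖ ^ 2 := by
  have hm : ∀ a : ℂ, (-1 / 2 * a).re = -1 / 2 * a.re := by
    intro a
    have : (-1 / 2 : ℂ) = ((-1 / 2 : ℝ) : ℂ) := by push_cast; rfl
    rw [this, Complex.re_ofReal_mul]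
  rw [@norm_add_sq ℂ, @norm_add_sq ℂ, @norm_sub_sq ℂ]
  unfold Q
  simp only [Fin.sum_univ_three, mk3, Matrix.of_apply, Matrix.cons_val', Matrix.cons_val_zero,
    Matrix.cons_val_one, Matrix.cons_val, one_mul, Complex.add_re, re_inner_self', half_re, hm,
    RCLike.re_to_complex]
  rw [re_inner_comm' (g 0) (g 1), re_inner_comm' (g 0) (g 2), re_inner_comm' (g 1) (g 2)]
  ring

/-- three-point `k`-Pick data are constant and contractive -/
lemma const_of_univ (S : Fin 3 → E n →ₗ[ℂ] E n)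
    (hS : ∀ h : Fin 3 → E n, Q mk3 Finset.univ (fun i => S i (h i)) ≤ Q mk3 Finset.univ h) :
    (∀ i, S i = S 0) ∧ ∀ v, ‖S 0 v‖ ≤ ‖v‖ := by
  have h1 : ∀ v, S 1 v = S 0 v ∧ S 2 v = S 0 v := by
    intro v
    have h2 := hS ![v, -v, v]
    rw [Qk_univ', Qk_univ'] at h2
    simp only [Matrix.cons_val_zero, Matrix.cons_val_one, Matrix.cons_val, add_neg_cancel,
      neg_add_cancel, sub_self, norm_zero, map_neg] at h2
    have h3 : 0 ≤ ‖S 0 v + -S 1 v‖ ^ 2 := sq_nonneg _
    have h4 : 0 ≤ ‖-S 1 v + S 2 v‖ ^ 2 := sq_nonneg _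
    have h5 : 0 ≤ ‖S 0 v - S 2 v‖ ^ 2 := sq_nonneg _
    have h6 : ‖S 0 v + -S 1 v‖ ^ 2 = 0 := by nlinarith
    have h7 : ‖S 0 v - S 2 v‖ ^ 2 = 0 := by nlinarith
    rw [sq_eq_zero_iff, norm_eq_zero] at h6 h7
    constructor
    · rw [← sub_eq_add_neg, sub_eq_zero] at h6
      exact h6.symm
    · rw [sub_eq_zero] at h7
      exact h7.symm
  constructor
  · intro i
    fin_cases i
    · rfl
    · exact LinearMap.ext fun v => (h1 v).1
    · exact LinearMap.ext fun v => (h1 v).2
  · intro v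
    have h2 := hS ![v, 0, 0]
    rw [Qk_univ', Qk_univ'] at h2
    simp only [Matrix.cons_val_zero, Matrix.cons_val_one, Matrix.cons_val, add_zero, sub_zero,
      norm_zero, map_zero] at h2
    have h3 : ‖S 0 v‖ ^ 2 ≤ ‖v‖ ^ 2 := by nlinarith
    exact (pow_le_pow_iff_left₀ (norm_nonneg _) (norm_nonneg _) two_ne_zero).1 h3

/-- `k`-Pick data are `l`-Pick data -/
lemma pick_transfer (F : Finset (Fin 3)) (S : Fin 3 → E n →ₗ[ℂ] E n)
    (hS : ∀ h : Fin 3 → E n, Q mk3 F (fun i => S i (h i)) ≤ Q mk3 F h) (h : Fin 3 → E n) :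
    Q ml3 F (fun i => S i (h i)) ≤ Q ml3 F h := by
  by_cases h1 : (1 : Fin 3) ∈ F
  · by_cases h0 : (0 : Fin 3) ∈ F
    · by_cases h2 : (2 : Fin 3) ∈ F
      · have hF : F = Finset.univ := by
          ext x
          fin_cases x <;> simp_all
        subst hF
        obtain ⟨hc1, hc2⟩ := const_of_univ S hS
        have : (fun i => S i (h i)) = fun i => S 0 (h i) := by
          funext i; rw [hc1 i]
        rw [this]
        exact pick_const ml3_psd _ _ hc2 h
      · refine pick_signs mk3 ml3 F (fun _ => 1) ?_ S hS h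
        intro x hx y hy
        have hx2 : x ≠ 2 := fun e => h2 (e ▸ hx)
        have hy2 : y ≠ 2 := fun e => h2 (e ▸ hy)
        fin_cases x <;> fin_cases y <;> simp_all [mk3, ml3]
    · refine pick_signs mk3 ml3 F (fun _ => 1) ?_ S hS h
      intro x hx y hy
      have hx2 : x ≠ 0 := fun e => h0 (e ▸ hx)
      have hy2 : y ≠ 0 := fun e => h0 (e ▸ hy)
      fin_cases x <;> fin_cases y <;> simp_all [mk3, ml3]
  · refine pick_signs mk3 ml3 F (fun i => if i = 2 then -1 else 1) ?_ S hS h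
    intro x hx y hy
    have hx2 : x ≠ 1 := fun e => h1 (e ▸ hx)
    have hy2 : y ≠ 1 := fun e => h1 (e ▸ hy)
    fin_cases x <;> fin_cases y <;> simp_all [mk3, ml3] <;> norm_num

/-- the pull-back of a kernel -/
noncomputable def pull {X Y : Type*} (k : Kernel X) (z : Y → X) : Kernel Y :=
  ⟨k.fn.submatrix z z, k.psd.submatrix z⟩

/-- reduction of arbitrary finite data to data on a finite set of points -/
lemma reduce {m : ℕ} (z : Fin m → Fin 3) (W : Fin m → Matrix (Fin n) (Fin n) ℂ)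
    (hW : (Matrix.of fun a b : Fin m × Fin n =>
      (1 - W a.1 * (W b.1)ᴴ) a.2 b.2 * kerk.fn (z a.1) (z b.1)).PosSemidef) :
    ∃ S : Fin 3 → E n →ₗ[ℂ] E n, (∀ i, S (z i) = Matrix.toEuclideanLin (W i)ᴴ) ∧
      ∀ h : Fin 3 → E n, Q mk3 (Finset.univ.image z) (fun i => S i (h i)) ≤
        Q mk3 (Finset.univ.image z) h := by
  classical
  have hP : (pickMatrix (pull kerk z) (pull kerk z) Finset.univ W).PosSemidef := by
    have h1 := hW.submatrix (fun a : (↥(Finset.univ : Finset (Fin m)) × Fin n) =>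
      ((a.1 : Fin m), a.2))
    convert h1 using 1
    ext a b
    simp only [pickMatrix, pull, Matrix.of_apply, Matrix.submatrix_apply, Matrix.sub_apply,
      Matrix.smul_apply, smul_eq_mul]
    ring
  rw [pick_iff] at hP
  -- equal points carry equal matrices
  have heq : ∀ i j, z i = z j → adjMap W i = adjMap W j := by
    intro i j hij
    by_cases hne : i = j
    · rw [hne]
    ext1 v
    have h1 := pick_mono (F := {i, j}) (Finset.subset_univ _) (adjMap W) hP
      (fun a => if a = i then v else -v)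
    have hk : ∀ x : Fin 3, kerk.fn x x = 1 := by
      intro x
      fin_cases x <;> simp [kerk, mk3]
    have hQ : ∀ g : Fin m → E n, Q (pull kerk z).fn {i, j} g = ‖g i + g j‖ ^ 2 := by
      intro g
      unfold Q
      rw [Finset.sum_pair hne, Finset.sum_pair hne, Finset.sum_pair hne]
      simp only [pull, Matrix.submatrix_apply, hij, hk, one_mul, Complex.add_re, re_inner_self']
      rw [re_inner_comm' (g i) (g j), @norm_add_sq ℂ]
      simp only [RCLike.re_to_complex]
      ring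
    rw [hQ, hQ] at h1
    have hji : ¬ j = i := fun e => hne e.symm
    rw [if_pos rfl, if_neg hji, add_neg_cancel, norm_zero, map_neg] at h1
    have h2 : ‖adjMap W i v + -adjMap W j v‖ ^ 2 = 0 :=
      le_antisymm (by simpa using h1) (sq_nonneg _)
    rw [sq_eq_zero_iff, norm_eq_zero, ← sub_eq_add_neg, sub_eq_zero] at h2
    exact h2
  set F := Finset.univ.image z with hF
  have hr : ∀ x : Fin 3, ∃ S : E n →ₗ[ℂ] E n, ∀ i, z i = x → S = adjMap W i := by
    intro x
    by_cases hx : ∃ i, z i = x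
    · obtain ⟨i, hi⟩ := hx
      exact ⟨adjMap W i, fun j hj => heq i j (hi.trans hj.symm)⟩
    · exact ⟨0, fun i hi => absurd ⟨i, hi⟩ hx⟩
  choose S hS using hr
  refine ⟨S, fun i => hS (z i) i rfl, fun h => ?_⟩
  rcases Nat.eq_zero_or_pos m with hm | hm
  · subst hm
    have : F = ∅ := by rw [hF]; simp
    rw [this]
    simp [Q]
  -- representatives
  have hrep : ∀ x : Fin 3, ∃ i : Fin m, x ∈ F → z i = x := by
    intro x
    by_cases hx : x ∈ F
    · rw [hF, Finset.mem_image] at hx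
      obtain ⟨i, _, hi⟩ := hx
      exact ⟨i, fun _ => hi⟩
    · exact ⟨⟨0, hm⟩, fun h => absurd h hx⟩
  choose r hr using hrep
  have hinj : ∀ x ∈ F, ∀ y ∈ F, r x = r y → x = y := by
    intro x hx y hy hxy
    rw [← hr x hx, ← hr y hy, hxy]
  have hsum : ∀ g : Fin m → E n, Q (pull kerk z).fn (F.image r) g =
      Q mk3 F (fun x => g (r x)) := by
    intro g
    unfold Q
    rw [Finset.sum_image hinj]
    congr 1
    refine Finset.sum_congr rfl fun x hx => ?_
    rw [Finset.sum_image hinj]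
    refine Finset.sum_congr rfl fun y hy => ?_
    simp only [pull, Matrix.submatrix_apply, hr x hx, hr y hy, kerk]
  have h1 := pick_mono (F := F.image r) (Finset.subset_univ _) (adjMap W) hP
    (fun i => h (z i))
  rw [hsum, hsum] at h1
  rw [Q_congr mk3 (F := F) (h := fun x => (adjMap W (r x)) (h (z (r x))))
    (h' := fun i => S i (h i)) (fun x hx => by
      rw [hS x (r x) (hr x hx), hr x hx]),
    Q_congr mk3 (F := F) (h := fun x => h (z (r x))) (h' := h)
      (fun x hx => by rw [hr x hx])] at h1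
  exact h1

/-- the pair has the pseudo-Pick property for all numbers of points and all matrix sizes -/
theorem pseudoPick (m n : ℕ) : PseudoPickProperty kerk kerl m n := by
  intro z W hW
  obtain ⟨S, hS1, hS2⟩ := reduce z W hW
  have hS3 := pick_transfer _ S hS2
  obtain ⟨T, hT1, hT2⟩ := extend_all ml3_psd ml3_psd
    (onePoint_of_certificate (k := kerl) (l := kerl) kerl_certificate n) _ S hS3
  let Φ : Fin 3 → Matrix (Fin n) (Fin n) ℂ := fun x => (Matrix.toEuclideanLin.symm (T x))ᴴ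
  have hΦ : ∀ x, adjMap Φ x = T x := by
    intro x
    simp only [adjMap, Φ, Matrix.conjTranspose_conjTranspose, LinearEquiv.apply_symm_apply]
  refine ⟨Φ, multiplier_of_Q ?_, ?_⟩
  · intro G h
    simp only [hΦ]
    exact hT2 G h
  · intro i
    have h1 := hT1 (z i) (Finset.mem_image_of_mem z (Finset.mem_univ i))
    rw [hS1] at h1
    simp only [Φ, h1, LinearEquiv.symm_apply_apply, Matrix.conjTranspose_conjTranspose]

lemma quotient_not_psd :
    ¬ (Matrix.of fun x y => kerl.fn x y / kerk.fn x y : Matrix (Fin 3) (Fin 3) ℂ).PosSemidef := by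
  intro h
  have h1 := psd_univ h ![1, -1, 1]
  have h2 : (∑ i, ∑ j, conj ((![1, -1, 1] : Fin 3 → ℂ) i) *
      (Matrix.of fun x y => kerl.fn x y / kerk.fn x y : Matrix (Fin 3) (Fin 3) ℂ) i j *
      (![1, -1, 1] : Fin 3 → ℂ) j) = -3 := by
    simp [Fin.sum_univ_three, kerl, kerk, mk3, ml3]
    norm_num
  rw [h2] at h1
  norm_num at h1

/-- **Negative answer to Q1**: on a three-point set there are kernels `k`, `l`, with `k`
non-vanishing, such that `(k, l)` is complete pseudo-Pick (even with arbitrary numbers of points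
and arbitrary matrix sizes) and `l / k` is not positive semidefinite. -/
theorem result : ∃ k l : Kernel (Fin 3), (∀ x y, k.fn x y ≠ 0) ∧ IsCompletePseudoPick k l ∧
    (∀ m n : ℕ, PseudoPickProperty k l m n) ∧
    ¬ (Matrix.of fun x y => l.fn x y / k.fn x y : Matrix (Fin 3) (Fin 3) ℂ).PosSemidef := by
  refine ⟨kerk, kerl, ?_, fun n _ => pseudoPick n n, pseudoPick, quotient_not_psd⟩
  intro x y
  fin_cases x <;> fin_cases y <;> simp [kerk, mk3]

end Pool.Agent.Results.MP_cbd977_an.PseudoPick
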